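import Pool.Agent.helper83.SC.Wire
import Pool.Agent.helper83.SB.LOW

/-!
The support theorem for the mixed area measure (in the sense of `IsMixedArea`), from `CORE_stmt`.
-/

open scoped Pointwise ContDiff
open MeasureTheory Set Filter Topology

namespace Pool.Agent.helper81.SN

open Pool.Agent.helper83.SC Pool.Agent.helper83.SB

/-- The chart formula for mixed area measures. -/
theorem local_identity : local_identity_stmt := by
  have hLL : loc_lip_stmt := loc_lip_of loc_bdd_of
  have hTD : tendsto_diag_stmt := tendsto_diag_of hLL
  have hSI : sel_integrable_stmt :=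
    sel_integrable_of ae_argmin_unique_of alexandrov_smooth_of exists_smooth_of hLL hTD
  have hTA : tendsto_A_stmt := tendsto_A_of ae_argmin_unique_of hSI hLL hTD
  have hAS : A_smooth_stmt :=
    A_smooth_of alexandrov_smooth_of hTA hess_add_of hess_normSq_of continuous_hess_of
  have hSh : B_shift_stmt :=
    B_shift_of mD_polar_of hess_add_of hess_sum_of continuous_hess_of hAS hTA exists_smooth_of
  intro m hm b C hC S hS φ hφ
  exact local_identity_of hSh (integral_conj_sub_of ae_argmin_unique_of hSI)
    (A_interval_of hTA) Body_add H_add F_CV volume_sub exists_test_body_of coord_facts_of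
    hE_facts_of isBody_sum_of chart_CV_of hm b hC hS hφ

/-- Extreme directions in a chart. -/
theorem mem_extreme_chart : mem_extreme_chart_stmt :=
  mem_extreme_chart_of (mem_extreme_iff_of touching_span_of flat_sum_of isBody_sum_of hE_facts_of)
    hE_facts_of flat_submodule_of

/-- Schneider's conjecture for the mixed area measure, from the core theorem. -/
theorem support_of_core (hcore : CORE_stmt) {m : ℕ} (hm : 1 ≤ m) (C : Fin m → Set (E (m + 1)))
    (hC : ∀ i, IsBody (C i)) (S : Measure (E (m + 1))) (hS : IsMixedArea C S) :
    {u | ∀ U : Set (E (m + 1)), IsOpen U → u ∈ U → 0 < S U} = closure (extremeDirections C) := by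
  refine subset_antisymm (W_main @W_lower' @W_upper' hm C hC S hS).1 ?_
  intro u h U hU huU
  obtain ⟨v, hvU, hvE⟩ := mem_closure_iff.1 h U hU huU
  refine pos_iff_ne_zero.2 ?_
  exact @LOW_of mem_extreme_chart chart_CV_of exists_basis_of m (hcore m hm) C hC S
    ⟨hS.1, hS.2.1⟩ (fun b φ hφ => local_identity hm b hC hS hφ) v hvE U hU hvU

end Pool.Agent.helper81.SN
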