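import Pool.Agent.helper83.SC.Stmt

/-!
The cutting lemma of the sn project: let `G` be convex and `q` continuous with `q ≤ 0` on the flat
directions of `G` at `0`. Then for small `l > 0` there is an affine function `ℓ` with
`ℓ 0 ≥ G 0 - l * b` and `ℓ + l * q ≤ G` on a given ball.
-/

open scoped Pointwise ContDiff
open MeasureTheory Set Filter Topology

namespace Pool.Agent.helper81.SN

open Pool.Agent.helper83.SC

/-- Caratheodory: a point of the convex hull is a convex combination of `finrank + 1` points. -/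
theorem caratheodory {V : Type*} [AddCommGroup V] [Module ℝ V] [FiniteDimensional ℝ V]
    {s : Set V} {x : V} (hx : x ∈ convexHull ℝ s) :
    ∃ (w : Fin (Module.finrank ℝ V + 1) → ℝ) (z : Fin (Module.finrank ℝ V + 1) → V),
      (∀ i, 0 ≤ w i) ∧ ∑ i, w i = 1 ∧ (∀ i, z i ∈ s) ∧ ∑ i, w i • z i = x := by
  have hne : s.Nonempty := by
    rw [← convexHull_nonempty_iff (𝕜 := ℝ)]
    exact ⟨x, hx⟩
  obtain ⟨s₀, hs₀⟩ := hne
  obtain ⟨ι, _, z, w, hz, hai, hw0, hw1, hx⟩ := eq_pos_convex_span_of_mem_convexHull hx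
  have hcard : Fintype.card ι ≤ Fintype.card (Fin (Module.finrank ℝ V + 1)) := by
    rw [Fintype.card_fin]
    exact hai.card_le_finrank_succ.trans (Nat.succ_le_succ (Submodule.finrank_le _))
  obtain ⟨e⟩ := Function.Embedding.nonempty_of_card_le hcard
  have e1 : ∀ i, Function.extend e w 0 (e i) = w i := fun i => e.injective.extend_apply _ _ _
  have e2 : ∀ i, Function.extend e z (fun _ => s₀) (e i) = z i :=
    fun i => e.injective.extend_apply _ _ _
  have e3 : ∀ j, (¬ ∃ i, e i = j) → Function.extend e w 0 j = 0 :=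
    fun j hj => Function.extend_apply' _ _ _ hj
  have e4 : ∀ j, (¬ ∃ i, e i = j) → Function.extend e z (fun _ => s₀) j = s₀ :=
    fun j hj => Function.extend_apply' _ _ _ hj
  refine ⟨Function.extend e w 0, Function.extend e z fun _ => s₀, ?_, ?_, ?_, ?_⟩
  · intro j
    by_cases hj : ∃ i, e i = j
    · obtain ⟨i, rfl⟩ := hj
      rw [e1]
      exact (hw0 i).le
    · rw [e3 j hj]
  · rw [← hw1]
    refine (Fintype.sum_of_injective e e.injective w _ ?_ ?_).symm
    · intro j hj
      exact e3 j (by simpa using hj)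
    · intro i
      rw [e1]
  · intro j
    by_cases hj : ∃ i, e i = j
    · obtain ⟨i, rfl⟩ := hj
      rw [e2]
      exact hz ⟨i, rfl⟩
    · rw [e4 j hj]
      exact hs₀
  · rw [← hx]
    refine (Fintype.sum_of_injective e e.injective (fun i => w i • z i) _ ?_ ?_).symm
    · intro j hj
      rw [e3 j (by simpa using hj), zero_smul]
    · intro i
      rw [e1, e2]

/-- The convex hull of a compact set is compact. -/
theorem hull_compact {V : Type*} [NormedAddCommGroup V] [NormedSpace ℝ V] [FiniteDimensional ℝ V]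
    {s : Set V} (hs : IsCompact s) : IsCompact (convexHull ℝ s) := by
  set n := Module.finrank ℝ V + 1 with hn
  set T : Set ((Fin n → ℝ) × (Fin n → V)) := stdSimplex ℝ (Fin n) ×ˢ (univ.pi fun _ => s) with hT
  have hTc : IsCompact T := (isCompact_stdSimplex ℝ (Fin n)).prod (isCompact_univ_pi fun _ => hs)
  have himg : (fun x : (Fin n → ℝ) × (Fin n → V) => ∑ i, x.1 i • x.2 i) '' T
      = convexHull ℝ s := by
    apply Subset.antisymm
    · rintro _ ⟨⟨w, z⟩, ⟨hw, hz⟩, rfl⟩
      exact (convex_convexHull ℝ s).sum_mem (fun i _ => hw.1 i) hw.2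
        (fun i _ => subset_convexHull ℝ s (hz i (mem_univ i)))
    · intro x hx
      obtain ⟨w, z, h1, h2, h3, h4⟩ := caratheodory hx
      exact ⟨(w, z), ⟨⟨h1, h2⟩, fun i _ => h3 i⟩, h4⟩
  rw [← himg]
  exact hTc.image (by fun_prop)

/-- A convex function on `E m` has an affine minorant touching at the origin. -/
theorem exists_support {m : ℕ} {G : E m → ℝ} (hG : CV G) :
    ∃ p : E m, ∀ x, G 0 + inner ℝ p x ≤ G x := by
  have hcont : Continuous G := continuousOn_univ.mp (ConvexOn.continuousOn isOpen_univ hG)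
  -- separate the open strict epigraph from the point (0, G 0)
  have hopen : IsOpen {z : E m × ℝ | G z.1 < z.2} :=
    isOpen_lt (hcont.comp continuous_fst) continuous_snd
  have hconv : Convex ℝ {z : E m × ℝ | G z.1 < z.2} := by
    have h := hG.convex_strict_epigraph
    convert h using 1
    ext z
    simp
  have hdis : ((0 : E m), G 0) ∉ {z : E m × ℝ | G z.1 < z.2} := by
    simp
  obtain ⟨φ, hφ0⟩ := geometric_hahn_banach_open_point hconv hopen hdis
  set α : E m := (InnerProductSpace.toDual ℝ (E m)).symm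
    (φ.comp (ContinuousLinearMap.inl ℝ (E m) ℝ)) with hα
  set β := φ ((0 : E m), (1 : ℝ)) with hβ
  have hφ : ∀ (y : E m) (t : ℝ), φ (y, t) = inner ℝ α y + β * t := by
    intro y t
    have e1 : ((y, t) : E m × ℝ) = (y, 0) + t • ((0 : E m), (1 : ℝ)) := by
      simp
    rw [e1, map_add, map_smul]
    have e2 : inner ℝ α y = φ (y, 0) := by
      rw [hα, InnerProductSpace.toDual_symm_apply]
      rfl
    rw [e2, smul_eq_mul, mul_comm]
  have h1 : ∀ (y : E m) (t : ℝ), G y < t → inner ℝ α y + β * t < β * G 0 := by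
    intro y t ht
    have := hφ0 (y, t) ht
    rw [hφ, hφ, inner_zero_right, zero_add] at this
    exact this
  have hβ0 : β < 0 := by
    have := h1 0 (G 0 + 1) (by linarith)
    rw [inner_zero_right, zero_add] at this
    linarith
  refine ⟨(-β)⁻¹ • α, fun x => ?_⟩
  have h2 : ∀ t, G x < t → inner ℝ α x + β * t ≤ β * G 0 := fun t ht => (h1 x t ht).le
  have h3 : inner ℝ α x + β * G x ≤ β * G 0 := by
    have hc : Tendsto (fun t : ℝ => inner ℝ α x + β * t) (𝓝[>] (G x))
        (𝓝 (inner ℝ α x + β * G x)) := by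
      apply Tendsto.mono_left _ nhdsWithin_le_nhds
      exact (continuous_const.add (continuous_const.mul continuous_id)).tendsto _
    refine le_of_tendsto hc ?_
    filter_upwards [self_mem_nhdsWithin] with t ht
    exact h2 t ht
  rw [real_inner_smul_left]
  have h4 : 0 < -β := by linarith
  have h5 : (-β)⁻¹ * inner ℝ α x ≤ G x - G 0 := by
    rw [inv_mul_le_iff₀ h4]
    linarith
  linarith

/-- Duality: if every affine minorant of `g` on the ball is `< s` at the origin, then a convex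
combination of points of the graph lies below `(0, s)`. -/
theorem duality {m : ℕ} {g : E m → ℝ} (hg : Continuous g) {R : ℝ} (hR : 0 < R) {s : ℝ}
    (h : ∀ (a : E m) (c : ℝ), (∀ x, ‖x‖ ≤ R → inner ℝ a x + c ≤ g x) → c < s) :
    ∃ (w : Fin (Module.finrank ℝ (E m × ℝ) + 1) → ℝ)
      (z : Fin (Module.finrank ℝ (E m × ℝ) + 1) → E m),
      (∀ i, 0 ≤ w i) ∧ ∑ i, w i = 1 ∧ (∀ i, ‖z i‖ ≤ R) ∧ ∑ i, w i • z i = 0 ∧
        ∑ i, w i * g (z i) ≤ s := by
  set K : Set (E m × ℝ) := (fun y : E m => (y, g y)) '' Metric.closedBall 0 R with hK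
  have hKc : IsCompact K := (isCompact_closedBall (0 : E m) R).image (continuous_id.prodMk hg)
  have hcomp : IsCompact (convexHull ℝ K) := hull_compact hKc
  have hRconv : Convex ℝ ({0} ×ˢ Iic s : Set (E m × ℝ)) :=
    (convex_singleton 0).prod (convex_Iic _)
  have hRclosed : IsClosed ({0} ×ˢ Iic s : Set (E m × ℝ)) := isClosed_singleton.prod isClosed_Iic
  by_cases hdisj : Disjoint (convexHull ℝ K) ({0} ×ˢ Iic s : Set (E m × ℝ))
  · exfalso
    obtain ⟨φ, u, v, h1, huv, h2⟩ := geometric_hahn_banach_compact_closed (convex_convexHull ℝ _)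
      hcomp hRconv hRclosed hdisj
    set α : E m := (InnerProductSpace.toDual ℝ (E m)).symm
      (φ.comp (ContinuousLinearMap.inl ℝ (E m) ℝ)) with hα
    set β := φ ((0 : E m), (1 : ℝ)) with hβ
    have hφ : ∀ (y : E m) (t : ℝ), φ (y, t) = inner ℝ α y + β * t := by
      intro y t
      have e1 : ((y, t) : E m × ℝ) = (y, 0) + t • ((0 : E m), (1 : ℝ)) := by
        simp
      rw [e1, map_add, map_smul]
      have e2 : inner ℝ α y = φ (y, 0) := by
        rw [hα, InnerProductSpace.toDual_symm_apply]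
        rfl
      rw [e2, smul_eq_mul, mul_comm]
    have hS : ∀ y : E m, ‖y‖ ≤ R → inner ℝ α y + β * g y < u := by
      intro y hy
      rw [← hφ]
      exact h1 _ (subset_convexHull ℝ _ ⟨y, by simpa using hy, rfl⟩)
    have hRR : ∀ t ≤ s, v < β * t := by
      intro t ht
      have := h2 ((0 : E m), t) ⟨rfl, ht⟩
      rw [hφ] at this
      simpa using this
    have hβ0 : β < 0 := by
      rcases lt_trichotomy β 0 with h | h | h
      · exact h
      · exfalso
        have h3 := hRR s le_rfl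
        rw [h, zero_mul] at h3
        have h4 := hS 0 (by rw [norm_zero]; exact hR.le)
        rw [h, zero_mul, add_zero, inner_zero_right] at h4
        linarith
      · exfalso
        have h3 := hRR (min s (v / β)) (min_le_left _ _)
        have h4 : β * min s (v / β) ≤ β * (v / β) :=
          mul_le_mul_of_nonneg_left (min_le_right _ _) h.le
        rw [mul_div_cancel₀ _ h.ne'] at h4
        linarith
    have hb0 : 0 < -β := by linarith
    have h5 := h ((-β)⁻¹ • α) s (by
      intro x hx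
      rw [real_inner_smul_left]
      have h6 := hS x hx
      have h7 := hRR s le_rfl
      have h8 : (-β)⁻¹ * inner ℝ α x ≤ g x - s := by
        rw [inv_mul_le_iff₀ hb0]
        linarith
      linarith)
    exact lt_irrefl _ h5
  · rw [Set.not_disjoint_iff] at hdisj
    obtain ⟨⟨y, t⟩, h1, h2, h3⟩ := hdisj
    simp only [mem_singleton_iff, mem_Iic] at h2 h3
    subst h2
    obtain ⟨w, z, hw0, hw1, hz, hc⟩ := caratheodory h1
    have hz1 : ∀ i, ‖(z i).1‖ ≤ R ∧ (z i).2 = g (z i).1 := by
      intro i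
      obtain ⟨y, hy, hyz⟩ := hz i
      rw [← hyz]
      exact ⟨by simpa using hy, rfl⟩
    refine ⟨w, fun i => (z i).1, hw0, hw1, fun i => (hz1 i).1, ?_, ?_⟩
    · have := congrArg Prod.fst hc
      rwa [Prod.fst_sum] at this
    · have := congrArg Prod.snd hc
      rw [Prod.snd_sum] at this
      refine le_of_eq_of_le ?_ h3
      refine Eq.trans ?_ this
      exact Finset.sum_congr rfl fun i _ => by rw [← (hz1 i).2]; rfl

/-- Jensen equality at the origin: points with positive weight are flat directions. -/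
theorem jensen_flat {m : ℕ} {G : E m → ℝ} (hG : CV G) {p : E m}
    (hp : ∀ x, G 0 + inner ℝ p x ≤ G x) {N : ℕ} {w : Fin N → ℝ} {z : Fin N → E m}
    (hw : ∀ i, 0 ≤ w i) (hw1 : ∑ i, w i = 1) (hz : ∑ i, w i • z i = 0)
    (hs : ∑ i, w i * G (z i) ≤ G 0) (i : Fin N) (hi : 0 < w i) : FlatAt G 0 (z i) := by
  set H : E m → ℝ := fun x => G x - (G 0 + inner ℝ p x) with hH
  have hH0 : ∀ x, 0 ≤ H x := fun x => by rw [hH]; simp only; linarith [hp x]
  have hHc : ConvexOn ℝ univ H := by
    have haff : ConcaveOn ℝ univ (fun x : E m => G 0 + inner ℝ p x) := by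
      refine ⟨convex_univ, fun x _ y _ a b _ _ hab => le_of_eq ?_⟩
      simp only [smul_eq_mul, inner_add_right, real_inner_smul_right]
      have : a * (G 0 + inner ℝ p x) + b * (G 0 + inner ℝ p y)
        = (a + b) * G 0 + (a * inner ℝ p x + b * inner ℝ p y) := by ring
      rw [this, hab, one_mul]
    exact ConvexOn.sub hG haff
  have hsum : ∑ j, w j * H (z j) ≤ 0 := by
    have e1 : ∑ j, w j * H (z j) = ∑ j, w j * G (z j) - (∑ j, w j) * G 0
        - inner ℝ p (∑ j, w j • z j) := by
      rw [inner_sum, Finset.sum_mul, ← Finset.sum_sub_distrib, ← Finset.sum_sub_distrib]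
      refine Finset.sum_congr rfl fun j _ => ?_
      rw [real_inner_smul_right, hH]
      ring
    rw [e1, hw1, hz, inner_zero_right]
    linarith
  have hall : ∀ j, w j * H (z j) = 0 := by
    have h1 := (Finset.sum_eq_zero_iff_of_nonneg (s := Finset.univ)
      (fun j _ => mul_nonneg (hw j) (hH0 (z j)))).1
      (le_antisymm hsum (Finset.sum_nonneg fun j _ => mul_nonneg (hw j) (hH0 (z j))))
    exact fun j => h1 j (Finset.mem_univ j)
  have hHi : H (z i) = 0 := by
    rcases mul_eq_zero.1 (hall i) with h | h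
    · exact absurd h hi.ne'
    · exact h
  have hH00 : H 0 = 0 := by rw [hH]; simp
  have hwi1 : w i ≤ 1 := by
    rw [← hw1]
    exact Finset.single_le_sum (fun j _ => hw j) (Finset.mem_univ i)
  -- the point w i • z i
  have hplus : H (w i • z i) = 0 := by
    apply le_antisymm _ (hH0 _)
    have := hHc.2 (mem_univ (z i)) (mem_univ (0 : E m)) hi.le (by linarith : 0 ≤ 1 - w i) (by ring)
    rw [smul_zero, add_zero, hHi, hH00] at this
    simpa using this
  -- the point - w i • z i
  have hminus : H (-(w i • z i)) = 0 := by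
    apply le_antisymm _ (hH0 _)
    have h2 := hHc.map_sum_le (t := Finset.univ) (w := w) (p := Function.update z i 0)
      (fun j _ => hw j) hw1 (fun j _ => mem_univ _)
    have e1 : ∑ j, w j • Function.update z i 0 j = -(w i • z i) := by
      have e2 : ∑ j, w j • Function.update z i 0 j = ∑ j, (w j • z j - if j = i then w i • z i else 0) := by
        refine Finset.sum_congr rfl fun j _ => ?_
        by_cases hj : j = i
        · subst hj
          simp
        · simp [hj]
      rw [e2, Finset.sum_sub_distrib, hz, Finset.sum_ite_eq' Finset.univ i]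
      simp
    rw [e1] at h2
    refine h2.trans (le_of_eq ?_)
    refine Finset.sum_eq_zero fun j _ => ?_
    by_cases hj : j = i
    · subst hj
      simp [hH00]
    · simp only [Function.update_of_ne hj, smul_eq_mul]
      exact hall j
  refine ⟨w i, hi, ?_⟩
  rw [hH] at hplus hminus
  simp only [inner_neg_right] at hplus hminus
  rw [zero_add, zero_sub]
  linarith

/-- THE CUTTING LEMMA. -/
theorem cut {m : ℕ} {G q : E m → ℝ} (hG : CV G) (hq : Continuous q)
    (h0 : ∀ x, FlatAt G 0 x → q x ≤ 0) {R b : ℝ} (hR : 0 < R) (hb : 0 < b) :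
    ∃ l₀ > (0 : ℝ), ∀ l, 0 < l → l ≤ l₀ → ∃ (a : E m) (c : ℝ), G 0 - l * b ≤ c ∧
      ∀ x, ‖x‖ ≤ R → inner ℝ a x + c + l * q x ≤ G x := by
  have hcont : Continuous G := continuousOn_univ.mp (ConvexOn.continuousOn isOpen_univ hG)
  obtain ⟨p, hp⟩ := exists_support hG
  by_contra hcon
  push Not at hcon
  -- a sequence of bad parameters
  have hbad : ∀ k : ℕ, ∃ l : ℝ, 0 < l ∧ l ≤ 1 / ((k : ℝ) + 1) ∧
      ∀ (a : E m) (c : ℝ), G 0 - l * b ≤ c → ∃ x, ‖x‖ ≤ R ∧ G x < inner ℝ a x + c + l * q x :=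
    fun k => hcon (1 / ((k : ℝ) + 1)) (by positivity)
  choose l hl0 hl1 hbad using hbad
  obtain ⟨n, hdual⟩ : ∃ n : ℕ, ∀ k, ∃ (w : Fin n → ℝ) (z : Fin n → E m),
      (∀ i, 0 ≤ w i) ∧ ∑ i, w i = 1 ∧ (∀ i, ‖z i‖ ≤ R) ∧ ∑ i, w i • z i = 0 ∧
        ∑ i, w i * (G (z i) - l k * q (z i)) ≤ G 0 - l k * b := by
    refine ⟨Module.finrank ℝ (E m × ℝ) + 1, ?_⟩
    intro k
    refine duality (g := fun x => G x - l k * q x) (hcont.sub (continuous_const.mul hq)) hR ?_
    intro a c hac
    by_contra hc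
    obtain ⟨x, hx, hxx⟩ := hbad k a c (not_lt.1 hc)
    linarith [hac x hx]
  choose w z hw0 hw1 hzR hz0 hzs using hdual
  set T : Set ((Fin n → ℝ) × (Fin n → E m)) :=
    stdSimplex ℝ (Fin n) ×ˢ (univ.pi fun _ => Metric.closedBall 0 R) with hT
  have hTc : IsCompact T := (isCompact_stdSimplex ℝ (Fin n)).prod
    (isCompact_univ_pi fun _ => isCompact_closedBall 0 R)
  have hmem : ∀ k, (w k, z k) ∈ T := fun k =>
    ⟨⟨hw0 k, hw1 k⟩, fun i _ => by simpa using hzR k i⟩
  obtain ⟨⟨w', z'⟩, hwz, σ, hσ, hlim⟩ := hTc.tendsto_subseq hmem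
  obtain ⟨⟨hw'0, hw'1⟩, hz'⟩ := hwz
  have hlw : Tendsto (fun k => w (σ k)) atTop (𝓝 w') :=
    (continuous_fst.tendsto _).comp hlim
  have hlz : Tendsto (fun k => z (σ k)) atTop (𝓝 z') :=
    (continuous_snd.tendsto _).comp hlim
  have hlwi : ∀ i, Tendsto (fun k => w (σ k) i) atTop (𝓝 (w' i)) := tendsto_pi_nhds.1 hlw
  have hlzi : ∀ i, Tendsto (fun k => z (σ k) i) atTop (𝓝 (z' i)) := tendsto_pi_nhds.1 hlz
  have hll : Tendsto (fun k => l (σ k)) atTop (𝓝 0) := by
    have h1 : Tendsto l atTop (𝓝 0) :=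
      squeeze_zero (fun k => (hl0 k).le) hl1 tendsto_one_div_add_atTop_nhds_zero_nat
    exact h1.comp hσ.tendsto_atTop
  -- limits
  have hz'0 : ∑ i, w' i • z' i = 0 := by
    have h1 : Tendsto (fun k => ∑ i, w (σ k) i • z (σ k) i) atTop (𝓝 (∑ i, w' i • z' i)) :=
      tendsto_finset_sum _ fun i _ => (hlwi i).smul (hlzi i)
    have h2 : (fun k => ∑ i, w (σ k) i • z (σ k) i) = fun _ => 0 := funext fun k => hz0 (σ k)
    rw [h2] at h1
    exact tendsto_nhds_unique h1 tendsto_const_nhds
  have hG' : Tendsto (fun k => ∑ i, w (σ k) i * G (z (σ k) i)) atTop (𝓝 (∑ i, w' i * G (z' i))) :=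
    tendsto_finset_sum _ fun i _ => (hlwi i).mul ((hcont.tendsto _).comp (hlzi i))
  have hq' : Tendsto (fun k => ∑ i, w (σ k) i * q (z (σ k) i)) atTop (𝓝 (∑ i, w' i * q (z' i))) :=
    tendsto_finset_sum _ fun i _ => (hlwi i).mul ((hq.tendsto _).comp (hlzi i))
  have hsp : ∀ k, ∑ i, w (σ k) i * (G (z (σ k) i) - l (σ k) * q (z (σ k) i))
      = ∑ i, w (σ k) i * G (z (σ k) i) - l (σ k) * ∑ i, w (σ k) i * q (z (σ k) i) := by
    intro k
    rw [Finset.mul_sum, ← Finset.sum_sub_distrib]
    exact Finset.sum_congr rfl fun i _ => by ring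
  have hGle : ∑ i, w' i * G (z' i) ≤ G 0 := by
    have h1 : Tendsto (fun k => ∑ i, w (σ k) i * G (z (σ k) i)
        - l (σ k) * ∑ i, w (σ k) i * q (z (σ k) i)) atTop
        (𝓝 (∑ i, w' i * G (z' i) - 0 * ∑ i, w' i * q (z' i))) := hG'.sub (hll.mul hq')
    have h2 : Tendsto (fun k => G 0 - l (σ k) * b) atTop (𝓝 (G 0 - 0 * b)) :=
      tendsto_const_nhds.sub (hll.mul tendsto_const_nhds)
    have h3 := le_of_tendsto_of_tendsto' h1 h2 (fun k => by
      rw [← hsp]
      exact hzs (σ k))
    simpa using h3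
  have hqge : b ≤ ∑ i, w' i * q (z' i) := by
    refine ge_of_tendsto' hq' fun k => ?_
    have h1 := hzs (σ k)
    rw [hsp] at h1
    have h2 : G 0 ≤ ∑ i, w (σ k) i * G (z (σ k) i) := by
      have h3 : ∑ i, w (σ k) i * (G 0 + inner ℝ p (z (σ k) i)) ≤ ∑ i, w (σ k) i * G (z (σ k) i) :=
        Finset.sum_le_sum fun i _ => mul_le_mul_of_nonneg_left (hp _) (hw0 _ i)
      have h4 : ∑ i, w (σ k) i * (G 0 + inner ℝ p (z (σ k) i))
          = (∑ i, w (σ k) i) * G 0 + inner ℝ p (∑ i, w (σ k) i • z (σ k) i) := by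
        rw [inner_sum, Finset.sum_mul, ← Finset.sum_add_distrib]
        exact Finset.sum_congr rfl fun i _ => by rw [real_inner_smul_right]; ring
      rw [h4, hw1, hz0, inner_zero_right, one_mul, add_zero] at h3
      exact h3
    have h5 : l (σ k) * b ≤ l (σ k) * ∑ i, w (σ k) i * q (z (σ k) i) := by linarith
    exact le_of_mul_le_mul_left h5 (hl0 _)
  have hqle : ∑ i, w' i * q (z' i) ≤ 0 := by
    refine Finset.sum_nonpos fun i _ => ?_
    rcases (hw'0 i).eq_or_lt with h | h
    · have h' : w' i = 0 := h.symm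
      rw [h', zero_mul]
    · exact mul_nonpos_of_nonneg_of_nonpos (hw'0 i)
        (h0 _ (jensen_flat hG hp hw'0 hw'1 hz'0 hGle i h))
  linarith

end Pool.Agent.helper81.SN
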