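import Pool.Agent.helper28.SN.SpecC

open scoped Pointwise ContDiff
open MeasureTheory Set Filter Topology Pool.Agent.helper83.SC Pool.Agent.helper69.SN

namespace Pool.Agent.helper81.SN

theorem cLOC : Pool.Agent.helper28.SN.cLOC_stmt := by
  intro m u v x h
  have h1 : ∀ j : Fin m, pd j u =ᶠ[𝓝 x] pd j v := by
    intro j
    have h2 := eventually_eventually_nhds.2 h
    filter_upwards [h2] with y hy
    unfold pd
    rw [Filter.EventuallyEq.fderiv_eq hy]
  ext i j
  show pd i (pd j u) x = pd i (pd j v) x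
  show fderiv ℝ (pd j u) x (e i) = fderiv ℝ (pd j v) x (e i)
  rw [Filter.EventuallyEq.fderiv_eq (h1 j)]

end Pool.Agent.helper81.SN
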