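import Pool.Agent.helper69.SN.SpecB

open scoped Pointwise ContDiff
open MeasureTheory Set Filter Topology Pool.Agent.helper83.SC

namespace Pool.Agent.helper81.SN

open Pool.Agent.helper69.SN

theorem xCMP (hPRX : xPRX_stmt) (hLOC : xLOC_stmt) : xCMP_stmt := by
  intro m κ κ' e R L ε hκ hκ' he hL heL h1 h2 h3 x hx
  obtain ⟨P, hP, hval, _⟩ := hPRX κ e hκ he
  obtain ⟨P', hP', hval', _⟩ := hPRX κ' e hκ' he
  have hd := (hLOC κ e R L P hκ he hL hP hval h1 x hx).1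
  have hd' := (hLOC κ' e R L P' hκ' he hL hP' hval' h2 x hx).1
  have hn : ∀ y : E m, ‖x - y‖ ≤ 2 * e * L → ‖y‖ ≤ R + 1 := by
    intro y hy
    have : ‖y‖ ≤ ‖x‖ + ‖x - y‖ := by
      have h := norm_sub_le x (x - y)
      rwa [sub_sub_cancel] at h
    linarith
  have e1 := abs_le.1 (h3 (P x) (hn _ hd))
  have e2 := abs_le.1 (h3 (P' x) (hn _ hd'))
  have f1 := hP' x (P x)
  have f2 := hP x (P' x)
  rw [hval, hval', abs_le]
  constructor <;> linarith [e1.1, e1.2, e2.1, e2.2]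

end Pool.Agent.helper81.SN
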