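import Pool.Agent.helper40.SN.SpecD
import Pool.Agent.helper81.SN.CUT

open scoped Pointwise ContDiff
open MeasureTheory Set Filter Topology Pool.Agent.helper83.SC Pool.Agent.helper69.SN

namespace Pool.Agent.helper81.SN

open Pool.Agent.helper40.SN

theorem dJEN (hGEO : dGEO_stmt) : dJEN_stmt := by
  intro m g hg D' hD Z hZ C δ hC hδ
  obtain ⟨hs, _, hnn, hzero, _⟩ := hGEO D'
  have hcont : Continuous (fun x => C * Qf D' x) := continuous_const.mul hs.1.continuous
  obtain ⟨R, hR0, hR⟩ : ∃ R : ℝ, 0 < R ∧ Z ⊆ Metric.closedBall 0 R := by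
    obtain ⟨R, hR⟩ := hZ.isBounded.subset_closedBall (0 : E m)
    exact ⟨max R 1, by positivity, hR.trans (Metric.closedBall_subset_closedBall (le_max_left _ _))⟩
  obtain ⟨l₀, hl₀, h⟩ := cut hg hcont (fun x hx => by
    show C * Qf D' x ≤ 0
    rw [hzero x (hD x hx), mul_zero]) hR0 (b := δ / 4) (by positivity)
  set l := min l₀ 1 with hl
  have hl0 : 0 < l := lt_min hl₀ one_pos
  obtain ⟨a, c, h1, h2⟩ := h l hl0 (min_le_left _ _)
  refine ⟨l, l * δ / 4, c - l * δ / 4, a, hl0, min_le_right _ _, by positivity, ?_, ?_⟩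
  · intro x hx
    have hx' := h2 x (by simpa using hR hx)
    linarith
  · nlinarith

end Pool.Agent.helper81.SN
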