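import Pool.Agent.helper77.SN.BDR

/-! Row xTCH: second order touching of the Perron function from below. -/

open scoped Pointwise ContDiff
open MeasureTheory Set Filter Topology Pool.Agent.helper83.SC

namespace Pool.Agent.helper81.SN

open Pool.Agent.helper69.SN

theorem TCH_qf {m : ℕ} (M : Mat m) (c : ℝ) (h : E m) :
    qf (M - c • (1 : Mat m)) h = qf M h - c * ‖h‖ ^ 2 := by
  have h1 : ‖h‖ ^ 2 = ∑ i, h i * h i := by
    rw [EuclideanSpace.norm_sq_eq]
    exact Finset.sum_congr rfl fun i _ => by rw [Real.norm_eq_abs, sq_abs, sq]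
  unfold qf
  rw [h1, Finset.mul_sum, ← Finset.sum_sub_distrib]
  refine Finset.sum_congr rfl fun i _ => ?_
  have h2 : ∑ j, h i * (M - c • (1 : Mat m)) i j * h j
      = ∑ j, (h i * M i j * h j - if i = j then c * (h i * h j) else 0) := by
    refine Finset.sum_congr rfl fun j _ => ?_
    rw [Matrix.sub_apply, Matrix.smul_apply, Matrix.one_apply, smul_eq_mul]
    split_ifs with hij
    · ring
    · ring
  rw [h2, Finset.sum_sub_distrib, Finset.sum_ite_eq Finset.univ i]
  simp

theorem xTCH (hPER : bPER_stmt) (hQUA : bQUA_stmt) (hCVX : bCVX_stmt)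
    (hLGL : bLGL_stmt) (haPER : aPER_stmt) (hBSM : aBSM_stmt) (hCLO : aCLO_stmt) : xTCH_stmt := by
  intro m n hm B hB hBc U κ₀ hUo hUb h0 y hy p M hM hexp s hs hin
  obtain ⟨κ, hκdef⟩ : ∃ κ, κ = per B U κ₀ := ⟨_, rfl⟩
  obtain ⟨hκC, hκge, hκoff, hκmax⟩ := hPER hm B hB U κ₀ hUb h0
  rw [← hκdef] at hexp
  rw [← hκdef] at hκC
  have hMs : M.IsSymm := by
    have h := hM.isHermitian
    rwa [Matrix.IsHermitian, Matrix.conjTranspose_eq_transpose_of_trivial] at h
  have hN : (M - s • (1 : Mat m)).PosSemidef := by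
    have h1 := (hBSM (B y) (hB y) _ hin).2
    rwa [sub_add_cancel] at h1
  have hs2 : s • (1 : Mat m) = (s / 2) • (1 : Mat m) + (s / 2) • (1 : Mat m) := by
    rw [← add_smul]
    congr 1
    ring
  have hM'eq : M - s • (1 : Mat m) + (s / 2) • (1 : Mat m) = M - (s / 2) • (1 : Mat m) := by
    rw [hs2]
    abel
  have hM' : (M - (s / 2) • (1 : Mat m)).PosSemidef := by
    rw [← hM'eq]
    exact hN.add (Matrix.PosSemidef.one.smul (by positivity))
  have hM's : (M - (s / 2) • (1 : Mat m)).IsSymm := by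
    have h := hM'.isHermitian
    rwa [Matrix.IsHermitian, Matrix.conjTranspose_eq_transpose_of_trivial] at h
  -- bounds for `B` near `y`
  have hΦ := BDR_cont B hBc
  obtain ⟨C, hC⟩ := (isCompact_closedBall (y : E m) 1).exists_bound_of_continuousOn
    hΦ.continuousOn
  have hCe : ∀ x : E m, ‖x - y‖ ≤ 1 → ∀ i a b, |B x i a b| ≤ C := by
    intro x hx i a b
    have h1 := hC x (by rw [Metric.mem_closedBall, dist_eq_norm]; exact hx)
    exact (norm_le_pi_norm (BDR_Φ B x) (i, a, b)).trans h1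
  have hbnn : (0 : ℝ) ≤ m * |C| := by positivity
  have hLe : ∀ x : E m, ‖x - y‖ ≤ 1 → Le (B x) (m * |C|) := by
    intro x hx i
    exact BDR_le (B x i) (BDR_sym (hB x) i) |C| _
      (fun a b => (hCe x hx i a b).trans (le_abs_self _)) le_rfl
  obtain ⟨η, hη, hper⟩ := haPER (m := m) (n := n) (m * |C|) (s / 2) hbnn (by linarith)
  have hm1 : (0 : ℝ) < m + 1 := by positivity
  obtain ⟨γ, hγ, hγ2⟩ := Metric.continuous_iff.1 hΦ y (η / (m + 1)) (by positivity)
  -- the class condition near `y`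
  have hcls : ∀ x : E m, ‖x - y‖ ≤ 1 → ‖x - y‖ < γ →
      M - (s / 2) • (1 : Mat m) - ∑ i, B x i ∈ GG (B x) := by
    intro x hx1 hxγ
    have hsmall : ∀ i a b, |B x i a b - B y i a b| ≤ η / (m + 1) := by
      intro i a b
      have h1 := hγ2 x (by rw [dist_eq_norm]; exact hxγ)
      have h2 := (dist_le_pi_dist (BDR_Φ B x) (BDR_Φ B y) (i, a, b)).trans h1.le
      rwa [Real.dist_eq] at h2
    have hmη : (m : ℝ) * (η / (m + 1)) ≤ η := by
      rw [mul_div_assoc', div_le_iff₀ hm1]
      nlinarith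
    have hηN : ∀ D : Mat m, D.IsSymm → (∀ a b, |D a b| ≤ η / (m + 1)) →
        (η • (1 + (M - s • (1 : Mat m))) - D).PosSemidef := by
      intro D hD hDs
      have h1 := (BDR_le D hD (η / (m + 1)) η hDs hmη).add (hN.smul hη.le)
      have h2 : η • (1 : Mat m) - D + η • (M - s • (1 : Mat m))
          = η • (1 + (M - s • (1 : Mat m))) - D := by
        rw [smul_add]
        abel
      rwa [h2] at h1
    have h5 := hper (B y) (B x) (M - s • (1 : Mat m)) (hB y) (hB x)
      (hLe y (by rw [sub_self, norm_zero]; exact zero_le_one)) (hLe x hx1) hN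
      (fun i => hηN _ ((BDR_sym (hB y) i).sub (BDR_sym (hB x) i)) fun a b => by
        rw [Matrix.sub_apply, abs_sub_comm]
        exact hsmall i a b)
      (fun i => hηN _ ((BDR_sym (hB x) i).sub (BDR_sym (hB y) i)) fun a b => hsmall i a b)
      ((hCLO (B y) (hB y)).2.1 _ (η • (1 : Mat m)) hin (Matrix.PosSemidef.one.smul hη.le))
    have h6 : M - s • (1 : Mat m) - ∑ i, B x i + (s / 2) • (1 : Mat m)
        = M - (s / 2) • (1 : Mat m) - ∑ i, B x i := by
      rw [← hM'eq]
      abel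
    rwa [h6] at h5
  -- the radius
  obtain ⟨r₁, hr₁, hexp1⟩ := hexp (s / 8) (by positivity)
  obtain ⟨r₂, hr₂, hball⟩ := Metric.isOpen_iff.1 hUo y hy
  obtain ⟨r, hrdef⟩ : ∃ r, r = min (min (γ / 2) 1) (min r₁ r₂) := ⟨_, rfl⟩
  have hr : 0 < r := by
    rw [hrdef]
    exact lt_min (lt_min (by positivity) one_pos) (lt_min hr₁ hr₂)
  have hrγ : r < γ := by
    have : r ≤ γ / 2 := by rw [hrdef]; exact (min_le_left _ _).trans (min_le_left _ _)
    linarith
  have hr1 : r ≤ 1 := by rw [hrdef]; exact (min_le_left _ _).trans (min_le_right _ _)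
  have hrr₁ : r ≤ r₁ := by rw [hrdef]; exact (min_le_right _ _).trans (min_le_left _ _)
  have hrr₂ : r ≤ r₂ := by rw [hrdef]; exact (min_le_right _ _).trans (min_le_right _ _)
  have hOU : Metric.ball y r ⊆ U := (Metric.ball_subset_ball hrr₂).trans hball
  -- the quadratic
  obtain ⟨q, hqdef⟩ : ∃ q : E m → ℝ, q = fun x => (κ y + s * r ^ 2 / 16) + inner ℝ p (x - y)
    + 1 / 2 * qf (M - (s / 2) • (1 : Mat m)) (x - y) := ⟨_, rfl⟩
  obtain ⟨hq1, hq2⟩ := hQUA (κ y + s * r ^ 2 / 16) p y (M - (s / 2) • (1 : Mat m)) hM's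
  rw [← hqdef] at hq1 hq2
  have hqS : SmC q := ⟨hq1, (hCVX hq1).2 fun x => by rw [hq2 x]; exact hM'⟩
  have hfront : ∀ x ∈ frontier (Metric.ball y r), q x < κ x := by
    intro x hx
    rw [frontier_ball y hr.ne', mem_sphere_iff_norm] at hx
    have h1 := hexp1 (x - y) (by rw [hx]; exact hrr₁)
    rw [add_sub_cancel, hx] at h1
    rw [hqdef]
    simp only
    rw [TCH_qf, hx]
    have h2 : 0 < s * r ^ 2 := by positivity
    linarith
  classical
  obtain ⟨f, hfdef⟩ : ∃ f : E m → ℝ, f = fun x => if x ∈ Metric.ball y r then max (κ x) (q x)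
    else κ x := ⟨_, rfl⟩
  have hf1 : ∀ x ∈ Metric.ball y r, f x = max (κ x) (q x) := fun x hx => by
    rw [hfdef]; simp only; rw [if_pos hx]
  have hf2 : ∀ x, x ∉ Metric.ball y r → f x = κ x := fun x hx => by
    rw [hfdef]; simp only; rw [if_neg hx]
  have hfC : Cls B f := hLGL B hB (Metric.ball y r) κ q Metric.isOpen_ball Metric.isBounded_ball
    hκC hqS (fun x hx => by
      have hx' : ‖x - y‖ ≤ r := by
        have := Metric.closure_ball_subset_closedBall hx
        rwa [Metric.mem_closedBall, dist_eq_norm] at this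
      rw [hq2 x]
      exact hcls x (by linarith) (by linarith)) hfront f hf1 hf2
  have hle := hκmax f hfC (fun x hx => by
    have hxO : x ∉ Metric.ball y r := fun h => hx (hOU h)
    rw [hf2 x hxO, hκdef, hκoff x hx]) y
  rw [← hκdef, hf1 y (Metric.mem_ball_self hr)] at hle
  have hqy : q y = κ y + s * r ^ 2 / 16 := by
    rw [hqdef]
    simp only [sub_self, inner_zero_right]
    have : qf (M - (s / 2) • (1 : Mat m)) (0 : E m) = 0 := by
      unfold qf
      simp
    rw [this]
    ring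
  have h3 := (le_max_right (κ y) (q y)).trans hle
  rw [hqy] at h3
  have h4 : 0 < s * r ^ 2 := by positivity
  linarith

end Pool.Agent.helper81.SN
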